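import Mathlib

/-!
# MP_6ac647_co : `wsat(s+t+j, K_{s,t})` is not `C(s+t+j,2) - j(s+t) - 2t + O(j)`

A clique on `s+t-1` vertices together with `j+1` further vertices, all joined to the same `s-1`
vertices of the clique, is weakly `K_{s,t}`-saturated and `K_{s,t}`-free.
-/

namespace Pool.Agent.Results.MP_6ac647_co.QuadraticGap

open SimpleGraph

/-- `G` is weakly `F`-saturated: `G` has no copy of `F` and the non-edges of `G` admit an ordering
`l` such that the graph formed by `G` and the first `i + 1` edges of `l` contains a copy of `F`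
using the edge `l[i]`. -/
structure WeaklySaturated {V W : Type*} (F : SimpleGraph W) (G : SimpleGraph V) : Prop where
  /-- `G` contains no copy of `F`. -/
  free : ¬ F ⊑ G
  /-- the ordering of the missing edges. -/
  order : ∃ l : List (Sym2 V), l.Nodup ∧
    (∀ e : Sym2 V, e ∈ l ↔ e ∈ (⊤ : SimpleGraph V).edgeSet ∧ e ∉ G.edgeSet) ∧
    ∀ (i : ℕ) (hi : i < l.length),
      ∃ f : Copy F (G ⊔ fromEdgeSet {e | e ∈ l.take (i + 1)}),
        ∃ e ∈ F.edgeSet, Sym2.map f e = l[i]

/-- The weak saturation number. -/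
noncomputable def wsat {W : Type*} (n : ℕ) (F : SimpleGraph W) : ℕ :=
  sInf {m : ℕ | ∃ G : SimpleGraph (Fin n), WeaklySaturated F G ∧ G.edgeSet.ncard = m}

/-- `K_{s,t}`. -/
abbrev Kst (s t : ℕ) : SimpleGraph (Fin s ⊕ Fin t) := completeBipartiteGraph (Fin s) (Fin t)

/-- The construction: a clique on the first `N` vertices, and the first `k` vertices are joined to
everything. -/
def Gc (n N k : ℕ) : SimpleGraph (Fin n) where
  Adj u v := u ≠ v ∧ ((u.1 < N ∧ v.1 < N) ∨ u.1 < k ∨ v.1 < k)
  symm := ⟨by
    rintro u v ⟨h, h'⟩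
    refine ⟨h.symm, ?_⟩
    tauto⟩
  loopless := ⟨by rintro u ⟨h, _⟩; exact h rfl⟩

/-- Stage one edges. -/
def E1 (n N k : ℕ) : Set (Sym2 (Fin n)) :=
  {e | e ∈ (⊤ : SimpleGraph (Fin n)).edgeSet ∧ e ∉ (Gc n N k).edgeSet ∧ ∃ x ∈ e, x.1 < N}

/-- Stage two edges. -/
def E2 (n N k : ℕ) : Set (Sym2 (Fin n)) :=
  {e | e ∈ (⊤ : SimpleGraph (Fin n)).edgeSet ∧ e ∉ (Gc n N k).edgeSet ∧ ∀ x ∈ e, N ≤ x.1}

lemma bip_adj_cases {s t : ℕ} {a b : Fin s ⊕ Fin t} (h : (Kst s t).Adj a b) :
    (∃ i j, a = Sum.inl i ∧ b = Sum.inr j) ∨ (∃ i j, a = Sum.inr j ∧ b = Sum.inl i) := by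
  rcases a with i | j <;> rcases b with i' | j'
  · simp at h
  · exact Or.inl ⟨i, j', rfl, rfl⟩
  · exact Or.inr ⟨i', j, rfl, rfl⟩
  · simp at h

/-- Build a copy of `K_{s,t}` from two injections with disjoint ranges. -/
def mkCopy {V : Type*} {s t : ℕ} (G : SimpleGraph V) (f : Fin s → V) (g : Fin t → V)
    (hf : Function.Injective f) (hg : Function.Injective g)
    (h : ∀ i j, G.Adj (f i) (g j)) : Copy (Kst s t) G where
  toHom :=
    { toFun := Sum.elim f g
      map_rel' := by
        intro a b hab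
        rcases bip_adj_cases hab with ⟨i, j, rfl, rfl⟩ | ⟨i, j, rfl, rfl⟩
        · exact h i j
        · exact (h i j).symm }
  injective' := by
    have : Function.Injective (Sum.elim f g) := by
      rintro (i | j) (i' | j') hab
      · exact congrArg Sum.inl (hf hab)
      · exact absurd hab (h i j').ne
      · exact absurd hab.symm (h i' j).ne
      · exact congrArg Sum.inr (hg hab)
    exact this

/-- Stage one: the copy created by an edge between an outside vertex `v` and a core vertex `x`. -/
lemma stage1 {n s t : ℕ} (hs : 2 ≤ s) (ht : s ≤ t) (v x : Fin n) (hv : s + t - 1 ≤ v.1)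
    (hx : x.1 < s + t - 1) (hx' : s - 1 ≤ x.1) :
    ∃ f : Copy (Kst s t) (Gc n (s + t - 1) (s - 1) ⊔ fromEdgeSet {s(x, v)}),
      ∃ e ∈ (Kst s t).edgeSet, Sym2.map f e = s(x, v) := by
  have hn := v.2
  let f : Fin s → Fin n := fun i => if h : i.1 < s - 1 then ⟨i.1, by omega⟩ else x
  let g : Fin t → Fin n := fun k => if h : k.1 = 0 then v else
    if h' : x.1 ≤ s - 2 + k.1 then ⟨s - 1 + k.1, by have := k.2; omega⟩
    else ⟨s - 2 + k.1, by have := k.2; omega⟩
  have hf : Function.Injective f := by
    intro a b hab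
    simp only [f] at hab
    have ha := a.2
    have hb := b.2
    apply Fin.ext
    split_ifs at hab with h1 h2 h2
    · exact Fin.mk.inj hab
    · have := congrArg Fin.val hab; simp at this; omega
    · have := congrArg Fin.val hab; simp at this; omega
    · omega
  have hg : Function.Injective g := by
    intro a b hab
    simp only [g] at hab
    have ha := a.2
    have hb := b.2
    apply Fin.ext
    split_ifs at hab <;> have := congrArg Fin.val hab <;> simp at this <;> omega
  have hadj : ∀ i j, (Gc n (s + t - 1) (s - 1) ⊔ fromEdgeSet {s(x, v)}).Adj (f i) (g j) := by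
    intro i k
    have hi := i.2
    have hk := k.2
    rw [sup_adj]
    simp only [f, g]
    split_ifs with h1 h2 h3 h4
    · left
      refine ⟨?_, Or.inr (Or.inl h1)⟩
      intro h; have := congrArg Fin.val h; simp at this; omega
    · left
      refine ⟨?_, Or.inr (Or.inl h1)⟩
      intro h; have := congrArg Fin.val h; simp at this; omega
    · left
      refine ⟨?_, Or.inr (Or.inl h1)⟩
      intro h; have := congrArg Fin.val h; simp at this; omega
    · right
      rw [fromEdgeSet_adj]
      refine ⟨rfl, ?_⟩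
      intro h; have := congrArg Fin.val h; omega
    · left
      refine ⟨?_, Or.inl ⟨hx, ?_⟩⟩
      · intro h; have := congrArg Fin.val h; simp at this; omega
      · simp; omega
    · left
      refine ⟨?_, Or.inl ⟨hx, ?_⟩⟩
      · intro h; have := congrArg Fin.val h; simp at this; omega
      · simp; omega
  refine ⟨mkCopy _ f g hf hg hadj, s(Sum.inl ⟨s - 1, by omega⟩, Sum.inr ⟨0, by omega⟩), ?_, ?_⟩
  · simp
  · show s(f ⟨s - 1, by omega⟩, g ⟨0, by omega⟩) = s(x, v)
    simp [f, g]

/-- Stage two: the copy created by an edge between two outside vertices. -/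
lemma stage2 {n s t : ℕ} (hs : 2 ≤ s) (ht : s ≤ t) (v w : Fin n) (hv : s + t - 1 ≤ v.1)
    (hw : s + t - 1 ≤ w.1) (hvw : v ≠ w) :
    ∃ f : Copy (Kst s t) (Gc n (s + t - 1) (s - 1) ⊔
        fromEdgeSet (E1 n (s + t - 1) (s - 1) ∪ {s(v, w)})),
      ∃ e ∈ (Kst s t).edgeSet, Sym2.map f e = s(v, w) := by
  have hn := v.2
  let f : Fin s → Fin n := fun i => if h : i.1 = 0 then v else ⟨i.1 - 1, by have := i.2; omega⟩
  let g : Fin t → Fin n := fun k => if h : k.1 = 0 then w else
    ⟨s - 2 + k.1, by have := k.2; omega⟩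
  have hf : Function.Injective f := by
    intro a b hab
    simp only [f] at hab
    have ha := a.2
    have hb := b.2
    apply Fin.ext
    split_ifs at hab <;> have := congrArg Fin.val hab <;> simp at this <;> omega
  have hg : Function.Injective g := by
    intro a b hab
    simp only [g] at hab
    have ha := a.2
    have hb := b.2
    apply Fin.ext
    split_ifs at hab <;> have := congrArg Fin.val hab <;> simp at this <;> omega
  have key : ∀ a b : Fin n, a ≠ b → a.1 < s + t - 1 →
      (Gc n (s + t - 1) (s - 1) ⊔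
        fromEdgeSet (E1 n (s + t - 1) (s - 1) ∪ {s(v, w)})).Adj a b := by
    intro a b hab ha
    by_cases h : (Gc n (s + t - 1) (s - 1)).Adj a b
    · exact Or.inl h
    · right
      rw [fromEdgeSet_adj]
      refine ⟨Or.inl ⟨?_, ?_, a, ?_, ha⟩, hab⟩
      · simpa using hab
      · exact h
      · exact Sym2.mem_mk_left a b
  have hadj : ∀ i j, (Gc n (s + t - 1) (s - 1) ⊔
      fromEdgeSet (E1 n (s + t - 1) (s - 1) ∪ {s(v, w)})).Adj (f i) (g j) := by
    intro i k
    have hi := i.2
    have hk := k.2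
    simp only [f, g]
    split_ifs with h1 h2 h2
    · right
      rw [fromEdgeSet_adj]
      exact ⟨Or.inr rfl, hvw⟩
    · apply SimpleGraph.Adj.symm
      apply key
      · intro h; have := congrArg Fin.val h; simp at this; omega
      · simp; omega
    · apply key
      · intro h; have := congrArg Fin.val h; simp at this; omega
      · simp; omega
    · apply key
      · intro h; have := congrArg Fin.val h; simp at this; omega
      · simp; omega
  refine ⟨mkCopy _ f g hf hg hadj, s(Sum.inl ⟨0, by omega⟩, Sum.inr ⟨0, by omega⟩), ?_, ?_⟩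
  · simp
  · show s(f ⟨0, by omega⟩, g ⟨0, by omega⟩) = s(v, w)
    simp [f, g]

lemma copy_mono {V W : Type*} {F : SimpleGraph W} {G G' : SimpleGraph V} (h : G ≤ G')
    {e₀ : Sym2 V} (hc : ∃ f : Copy F G, ∃ e ∈ F.edgeSet, Sym2.map f e = e₀) :
    ∃ f : Copy F G', ∃ e ∈ F.edgeSet, Sym2.map f e = e₀ := by
  obtain ⟨f, e, he, hfe⟩ := hc
  exact ⟨(Copy.ofLE _ _ h).comp f, e, he, hfe⟩

/-- The construction is `K_{s,t}`-free. -/
lemma gc_free {n s t : ℕ} (hs : 2 ≤ s) (ht : s ≤ t) :
    ¬ Kst s t ⊑ Gc n (s + t - 1) (s - 1) := by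
  rintro ⟨f⟩
  have hout : ∃ z, s + t - 1 ≤ (f z).1 := by
    by_contra hno
    push Not at hno
    let φ : Fin s ⊕ Fin t → Fin (s + t - 1) := fun z => ⟨(f z).1, hno z⟩
    have hφ : Function.Injective φ := by
      intro a b hab
      apply f.injective
      apply Fin.ext
      have h' : (φ a).1 = (φ b).1 := congrArg Fin.val hab
      exact h'
    have := Fintype.card_le_of_injective φ hφ
    simp at this
    omega
  obtain ⟨z, hz⟩ := hout
  rcases z with i | k
  · have hnb : ∀ k : Fin t, (f (Sum.inr k)).1 < s - 1 := by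
      intro k
      have hadj : (Gc n (s + t - 1) (s - 1)).Adj (f (Sum.inl i)) (f (Sum.inr k)) :=
        f.toHom.map_adj (by simp)
      obtain ⟨_, h | h | h⟩ := hadj
      · omega
      · omega
      · exact h
    let φ : Fin t → Fin (s - 1) := fun k => ⟨(f (Sum.inr k)).1, hnb k⟩
    have hφ : Function.Injective φ := by
      intro a b hab
      have : f (Sum.inr a) = f (Sum.inr b) := by
        apply Fin.ext
        have h' : (φ a).1 = (φ b).1 := congrArg Fin.val hab
        exact h'
      exact Sum.inr.inj (f.injective this)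
    have := Fintype.card_le_of_injective φ hφ
    simp at this
    omega
  · have hnb : ∀ i : Fin s, (f (Sum.inl i)).1 < s - 1 := by
      intro i
      have hadj : (Gc n (s + t - 1) (s - 1)).Adj (f (Sum.inr k)) (f (Sum.inl i)) :=
        f.toHom.map_adj (by simp)
      obtain ⟨_, h | h | h⟩ := hadj
      · omega
      · omega
      · exact h
    let φ : Fin s → Fin (s - 1) := fun k => ⟨(f (Sum.inl k)).1, hnb k⟩
    have hφ : Function.Injective φ := by
      intro a b hab
      have : f (Sum.inl a) = f (Sum.inl b) := by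
        apply Fin.ext
        have h' : (φ a).1 = (φ b).1 := congrArg Fin.val hab
        exact h'
      exact Sum.inl.inj (f.injective this)
    have := Fintype.card_le_of_injective φ hφ
    simp at this
    omega

/-- The construction is weakly `K_{s,t}`-saturated. -/
theorem weaklySaturated_Gc {n s t : ℕ} (hs : 2 ≤ s) (ht : s ≤ t) :
    WeaklySaturated (Kst s t) (Gc n (s + t - 1) (s - 1)) where
  free := gc_free hs ht
  order := by
    classical
    set N := s + t - 1 with hN
    set k := s - 1 with hk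
    set G := Gc n N k with hG
    let l1 : List (Sym2 (Fin n)) := (E1 n N k).toFinset.toList
    let l2 : List (Sym2 (Fin n)) := (E2 n N k).toFinset.toList
    have m1 : ∀ e, e ∈ l1 ↔ e ∈ E1 n N k := by intro e; simp [l1]
    have m2 : ∀ e, e ∈ l2 ↔ e ∈ E2 n N k := by intro e; simp [l2]
    refine ⟨l1 ++ l2, ?_, ?_, ?_⟩
    · rw [List.nodup_append]
      refine ⟨Finset.nodup_toList _, Finset.nodup_toList _, ?_⟩
      intro a ha b hb hab
      rw [m1] at ha
      rw [m2] at hb
      subst hab
      obtain ⟨_, _, x, hx, hx'⟩ := ha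
      have := hb.2.2 x hx
      omega
    · intro e
      rw [List.mem_append, m1, m2]
      constructor
      · rintro (h | h)
        · exact ⟨h.1, h.2.1⟩
        · exact ⟨h.1, h.2.1⟩
      · rintro ⟨h1, h2⟩
        by_cases h : ∃ x ∈ e, x.1 < N
        · exact Or.inl ⟨h1, h2, h⟩
        · right
          push Not at h
          exact ⟨h1, h2, h⟩
    · intro i hi
      by_cases hi1 : i < l1.length
      · have hget : (l1 ++ l2)[i] = l1[i] := List.getElem_append_left hi1
        rw [hget]
        have hmem : l1[i] ∈ E1 n N k := (m1 _).1 (List.getElem_mem hi1)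
        have hmt : l1[i] ∈ (l1 ++ l2).take (i + 1) := by
          rw [← hget]
          exact List.mem_take_iff_getElem.2 ⟨i, by omega, rfl⟩
        generalize l1[i] = e at hmem hmt
        apply copy_mono (G := G ⊔ fromEdgeSet {e})
        · apply sup_le_sup_left
          apply fromEdgeSet_mono
          rintro e' rfl
          exact hmt
        · obtain ⟨h1, h2, x, hx, hx'⟩ := hmem
          obtain ⟨v, rfl⟩ := hx
          rw [mem_edgeSet] at h2
          have hne : x ≠ v := by simpa using h1
          have hv : N ≤ v.1 := by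
            by_contra hv
            exact h2 ⟨hne, Or.inl ⟨hx', by omega⟩⟩
          have hxk : k ≤ x.1 := by
            by_contra hv
            exact h2 ⟨hne, Or.inr (Or.inl (by omega))⟩
          exact stage1 hs ht v x hv hx' hxk
      · have hi2 : i - l1.length < l2.length := by
          rw [List.length_append] at hi; omega
        have hget : (l1 ++ l2)[i] = l2[i - l1.length] :=
          List.getElem_append_right (by omega)
        rw [hget]
        have hmem : l2[i - l1.length] ∈ E2 n N k := (m2 _).1 (List.getElem_mem hi2)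
        have hmt : l2[i - l1.length] ∈ (l1 ++ l2).take (i + 1) := by
          rw [← hget]
          exact List.mem_take_iff_getElem.2 ⟨i, by omega, rfl⟩
        have hsub : ∀ e ∈ l1, e ∈ (l1 ++ l2).take (i + 1) := by
          intro e he
          rw [List.take_append]
          apply List.mem_append_left
          rw [List.take_of_length_le (by omega)]
          exact he
        generalize l2[i - l1.length] = e at hmem hmt
        apply copy_mono (G := G ⊔ fromEdgeSet (E1 n N k ∪ {e}))
        · apply sup_le_sup_left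
          apply fromEdgeSet_mono
          rintro e' (h | h)
          · exact hsub _ ((m1 _).2 h)
          · rw [Set.mem_singleton_iff] at h; rw [h]; exact hmt
        · obtain ⟨h1, h2, h3⟩ := hmem
          induction e using Sym2.ind with
          | _ v w =>
            have hne : v ≠ w := by simpa using h1
            exact stage2 hs ht v w (h3 v (Sym2.mem_mk_left v w)) (h3 w (Sym2.mem_mk_right v w)) hne

/-- The number of edges of the construction. -/
lemma ncard_edgeSet_le (N k p : ℕ) (hk : k ≤ N) :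
    (Gc (N + p) N k).edgeSet.ncard ≤ N.choose 2 + p * k := by
  have hsub : (Gc (N + p) N k).edgeSet ⊆
      (Sym2.map (Fin.castAdd p)) '' (⊤ : SimpleGraph (Fin N)).edgeSet ∪
      (fun q : Fin p × Fin k => s((Fin.natAdd N q.1 : Fin (N + p)),
        Fin.castAdd p (Fin.castLE hk q.2))) '' Set.univ := by
    intro e
    induction e using Sym2.ind with
    | _ u v =>
      intro hadj
      rw [mem_edgeSet] at hadj
      obtain ⟨hne, h⟩ := hadj
      by_cases hu : u.1 < N <;> by_cases hv : v.1 < N
      · left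
        refine ⟨s(⟨u.1, hu⟩, ⟨v.1, hv⟩), ?_, ?_⟩
        · rw [mem_edgeSet, top_adj]
          intro h'
          exact hne (Fin.ext (Fin.mk.inj h'))
        · simp
      · right
        have huk : u.1 < k := by omega
        refine ⟨(⟨v.1 - N, by have := v.2; omega⟩, ⟨u.1, huk⟩), trivial, ?_⟩
        have e1 : (Fin.natAdd N (⟨v.1 - N, by have := v.2; omega⟩ : Fin p) : Fin (N + p)) = v := by
          apply Fin.ext; simp; omega
        have e2 : Fin.castAdd p (Fin.castLE hk (⟨u.1, huk⟩ : Fin k)) = u := Fin.ext rfl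
        simp only [e1, e2]
        exact Sym2.eq_swap
      · right
        have hvk : v.1 < k := by omega
        refine ⟨(⟨u.1 - N, by have := u.2; omega⟩, ⟨v.1, hvk⟩), trivial, ?_⟩
        have e1 : (Fin.natAdd N (⟨u.1 - N, by have := u.2; omega⟩ : Fin p) : Fin (N + p)) = u := by
          apply Fin.ext; simp; omega
        have e2 : Fin.castAdd p (Fin.castLE hk (⟨v.1, hvk⟩ : Fin k)) = v := Fin.ext rfl
        simp only [e1, e2]
      · omega
  calc (Gc (N + p) N k).edgeSet.ncard
      ≤ ((Sym2.map (Fin.castAdd p)) '' (⊤ : SimpleGraph (Fin N)).edgeSet ∪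
      (fun q : Fin p × Fin k => s((Fin.natAdd N q.1 : Fin (N + p)),
        Fin.castAdd p (Fin.castLE hk q.2))) '' Set.univ).ncard :=
        Set.ncard_le_ncard hsub (Set.toFinite _)
    _ ≤ _ := Set.ncard_union_le _ _
    _ ≤ (⊤ : SimpleGraph (Fin N)).edgeSet.ncard + (Set.univ : Set (Fin p × Fin k)).ncard :=
        Nat.add_le_add (Set.ncard_image_le (Set.toFinite _)) (Set.ncard_image_le (Set.toFinite _))
    _ = N.choose 2 + p * k := by
        congr 1
        · classical
          rw [← coe_edgeFinset, Set.ncard_coe_finset, card_edgeFinset_top_eq_card_choose_two]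
          simp
        · rw [Set.ncard_univ]; simp

/-- The upper bound for the weak saturation number. -/
theorem wsat_le {s t : ℕ} (j : ℕ) (hs : 2 ≤ s) (ht : s ≤ t) :
    wsat (s + t + j) (Kst s t) ≤ (s + t - 1).choose 2 + (j + 1) * (s - 1) := by
  have e : s + t + j = (s + t - 1) + (j + 1) := by omega
  refine le_trans (Nat.sInf_le ⟨Gc (s + t + j) (s + t - 1) (s - 1), weaklySaturated_Gc hs ht, rfl⟩) ?_
  rw [e]
  exact ncard_edgeSet_le _ _ _ (by omega)

/-- The number `M(s,t,j)` of the question. -/
noncomputable def M (s t j : ℕ) : ℝ :=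
  ((s + t + j).choose 2 : ℝ) - (j : ℝ) * ((s : ℝ) + t) - 2 * t

/-- **Main theorem.**  The upper bound, and the failure of the question's `O(j)` estimate. -/
theorem result :
    (∀ s t j : ℕ, 2 ≤ s → s ≤ t →
      wsat (s + t + j) (Kst s t) ≤ (s + t - 1).choose 2 + (j + 1) * (s - 1)) ∧
    (∀ t : ℕ, 5 ≤ t → ((t : ℝ) ^ 2 - 13 * t + 24) / 2 ≤ M 3 t (t - 3) - wsat (3 + t + (t - 3)) (Kst 3 t)) ∧
    ¬ (∃ C : ℝ, ∀ s t j : ℕ, 2 < s → s ≤ t → 2 ≤ j → j ≤ t - 3 →
      |(wsat (s + t + j) (Kst s t) : ℝ) - M s t j| ≤ C * j) := by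
  have h1 : ∀ s t j : ℕ, 2 ≤ s → s ≤ t →
      wsat (s + t + j) (Kst s t) ≤ (s + t - 1).choose 2 + (j + 1) * (s - 1) :=
    fun s t j hs ht => wsat_le j hs ht
  have h2 : ∀ t : ℕ, 5 ≤ t →
      ((t : ℝ) ^ 2 - 13 * t + 24) / 2 ≤ M 3 t (t - 3) - wsat (3 + t + (t - 3)) (Kst 3 t) := by
    intro t ht
    obtain ⟨j, rfl⟩ := Nat.exists_eq_add_of_le' (show 3 ≤ t by omega)
    have h := h1 3 (j + 3) (j + 3 - 3) (by norm_num) (by omega)
    have hR : ((wsat (3 + (j + 3) + (j + 3 - 3)) (Kst 3 (j + 3)) : ℕ) : ℝ) ≤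
        (((3 + (j + 3) - 1).choose 2 + (j + 3 - 3 + 1) * (3 - 1) : ℕ) : ℝ) := by exact_mod_cast h
    have e1 : j + 3 - 3 = j := by omega
    have e2 : 3 + (j + 3) - 1 = j + 5 := by omega
    rw [e1, e2] at hR
    rw [e1]
    unfold M
    push_cast at hR ⊢
    rw [Nat.cast_choose_two] at hR
    have e3 : ((3 + (j + 3) + j : ℕ) : ℝ) = 2 * j + 6 := by push_cast; ring
    rw [Nat.cast_choose_two, e3]
    push_cast at hR ⊢
    nlinarith
  refine ⟨h1, h2, ?_⟩
  rintro ⟨C, hC⟩
  obtain ⟨m, hm⟩ := exists_nat_gt (max C 0)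
  have hm0 : (0 : ℝ) < m := lt_of_le_of_lt (le_max_right _ _) hm
  have hmC : C < m := lt_of_le_of_lt (le_max_left _ _) hm
  have hm1 : 1 ≤ m := by exact_mod_cast hm0
  let t := 2 * m + 20
  have h := hC 3 t (t - 3) (by norm_num) (by omega) (by omega) le_rfl
  have h' := h2 t (by omega)
  have h3 : M 3 t (t - 3) - wsat (3 + t + (t - 3)) (Kst 3 t) ≤ C * ((t - 3 : ℕ) : ℝ) := by
    have := neg_abs_le ((wsat (3 + t + (t - 3)) (Kst 3 t) : ℝ) - M 3 t (t - 3))
    linarith
  have e1 : ((t - 3 : ℕ) : ℝ) = 2 * m + 17 := by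
    have : t - 3 = 2 * m + 17 := by omega
    rw [this]; push_cast; ring
  have e2 : (t : ℝ) = 2 * m + 20 := by simp [t]
  rw [e1] at h3
  rw [e2] at h'
  nlinarith

end Pool.Agent.Results.MP_6ac647_co.QuadraticGap
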